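import Pool.Agent.H992.PM.JDefs

/-!
# From polynomials to trigonometric sums, joint version (S_JT)

Port of Pool/Agent/H962/PM/PT.lean (helper962).
-/

set_option autoImplicit false
open MeasureTheory Filter Topology Complex ProbabilityTheory
open scoped ContDiff ENNReal

namespace Pool.Agent.H356.JM

open Pool.Agent.W745.RW (TF)
open Pool.Agent.N661.BR (MW IsRandomWave lin)
open Pool.Agent.N661.BH (loc)
open Pool.Agent.N814.BHM (P mass)
open Pool.Agent.N814.BHASM (Hyp X mpos probP)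
open Pool.Agent.H992.LB (eγ eX nn nn_nonneg val pt SX val_lin sum_pt Q_eq eX_meas eX_norm val_meas
  fs val_fs SX_fs eγ_meas eγ_norm)
open Pool.Agent.H992.SF (eJ eXJ On In Struct pr)
open Pool.Agent.H992.PM

theorem tayl (N : ℕ) : ∀ x : ℝ, ‖Complex.exp (I * (x : ℂ)) -
    ∑ j ∈ Finset.range N, (I * (x : ℂ)) ^ j / (j.factorial : ℂ)‖ ≤ |x| ^ N / N.factorial := by
  induction N with
  | zero =>
    intro x
    rw [Finset.range_zero, Finset.sum_empty, sub_zero, mul_comm, Complex.norm_exp_ofReal_mul_I]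
    simp
  | succ N ih =>
    intro x
    have hd : ∀ s : ℝ, HasDerivAt (fun s : ℝ => Complex.exp (I * ((s * x : ℝ) : ℂ)) -
        ∑ j ∈ Finset.range (N + 1), (I * ((s * x : ℝ) : ℂ)) ^ j / (j.factorial : ℂ))
        (I * (x : ℂ) * (Complex.exp (I * ((s * x : ℝ) : ℂ)) -
          ∑ j ∈ Finset.range N, (I * ((s * x : ℝ) : ℂ)) ^ j / (j.factorial : ℂ))) s := by
      intro s
      have h0 : HasDerivAt (fun s : ℝ => I * ((s * x : ℝ) : ℂ)) (I * (x : ℂ)) s := by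
        have h1 : HasDerivAt (fun s : ℝ => s * x) x s := by
          have := (hasDerivAt_id s).mul_const x
          rwa [one_mul] at this
        exact (h1.ofReal_comp).const_mul I
      have h1 := h0.cexp
      have h2 : HasDerivAt (fun s : ℝ => ∑ j ∈ Finset.range N,
          (I * ((s * x : ℝ) : ℂ)) ^ (j + 1) / ((j + 1).factorial : ℂ))
          (∑ j ∈ Finset.range N, (I * ((s * x : ℝ) : ℂ)) ^ j / (j.factorial : ℂ) * (I * x)) s := by
        refine HasDerivAt.fun_sum fun j _ => ?_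
        have h3 := (h0.pow (j + 1)).div_const ((j + 1).factorial : ℂ)
        refine h3.congr_deriv ?_
        have h4 : (j.factorial : ℂ) ≠ 0 := by exact_mod_cast j.factorial_ne_zero
        have h5 : ((j : ℂ) + 1) ≠ 0 := by exact_mod_cast j.succ_ne_zero
        rw [Nat.factorial_succ, Nat.add_sub_cancel]
        push_cast
        field_simp
      have h3 := h1.sub (h2.add_const ((I * ((0 : ℝ) : ℂ)) ^ 0 / ((0 : ℕ).factorial : ℂ)))
      have h4 : (fun s : ℝ => Complex.exp (I * ((s * x : ℝ) : ℂ)) -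
          ∑ j ∈ Finset.range (N + 1), (I * ((s * x : ℝ) : ℂ)) ^ j / (j.factorial : ℂ)) =
          fun s : ℝ => Complex.exp (I * ((s * x : ℝ) : ℂ)) - (∑ j ∈ Finset.range N,
          (I * ((s * x : ℝ) : ℂ)) ^ (j + 1) / ((j + 1).factorial : ℂ) +
            (I * ((0 : ℝ) : ℂ)) ^ 0 / ((0 : ℕ).factorial : ℂ)) := by
        funext s
        rw [Finset.sum_range_succ']
        simp only [pow_zero]
      rw [h4]
      refine h3.congr_deriv ?_
      rw [← Finset.sum_mul]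
      ring
    have hc : Continuous fun s : ℝ => I * (x : ℂ) * (Complex.exp (I * ((s * x : ℝ) : ℂ)) -
        ∑ j ∈ Finset.range N, (I * ((s * x : ℝ) : ℂ)) ^ j / (j.factorial : ℂ)) := by
      have hc0 : Continuous fun s : ℝ => I * ((s * x : ℝ) : ℂ) := by fun_prop
      refine continuous_const.mul (((Complex.continuous_exp.comp hc0)).sub ?_)
      exact continuous_finsetSum _ fun j _ => (hc0.pow j).div_const _
    have h1 := intervalIntegral.integral_eq_sub_of_hasDerivAt (a := (0:ℝ)) (b := 1)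
      (fun s _ => hd s) (hc.intervalIntegrable _ _)
    have h0 : Complex.exp (I * (((0:ℝ) * x : ℝ) : ℂ)) -
        ∑ j ∈ Finset.range (N + 1), (I * (((0:ℝ) * x : ℝ) : ℂ)) ^ j / (j.factorial : ℂ) = 0 := by
      rw [Finset.sum_range_succ', zero_mul, Complex.ofReal_zero, mul_zero, Complex.exp_zero]
      rw [Finset.sum_eq_zero (fun j _ => by rw [zero_pow (Nat.succ_ne_zero j), zero_div])]
      simp
    rw [h0, sub_zero, one_mul] at h1
    rw [← h1]
    have h2 : ‖∫ s in (0:ℝ)..1, I * (x : ℂ) * (Complex.exp (I * ((s * x : ℝ) : ℂ)) -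
        ∑ j ∈ Finset.range N, (I * ((s * x : ℝ) : ℂ)) ^ j / (j.factorial : ℂ))‖ ≤
        ∫ s in (0:ℝ)..1, |x| ^ (N + 1) / N.factorial * s ^ N := by
      refine intervalIntegral.norm_integral_le_of_norm_le zero_le_one
        (Eventually.of_forall fun s hs => ?_)
        ((continuous_const.mul (continuous_id.pow N)).intervalIntegrable _ _)
      rw [norm_mul, norm_mul, Complex.norm_I, one_mul, Complex.norm_real, Real.norm_eq_abs]
      have h3 := ih (s * x)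
      calc |x| * ‖Complex.exp (I * ((s * x : ℝ) : ℂ)) -
            ∑ j ∈ Finset.range N, (I * ((s * x : ℝ) : ℂ)) ^ j / (j.factorial : ℂ)‖
          ≤ |x| * (|s * x| ^ N / N.factorial) := by gcongr
        _ = |x| ^ (N + 1) / N.factorial * s ^ N := by
          rw [abs_mul, abs_of_pos hs.1, mul_pow]
          ring
    refine h2.trans (le_of_eq ?_)
    rw [intervalIntegral.integral_const_mul, integral_pow, Nat.factorial_succ]
    push_cast
    have h4 : (N.factorial : ℝ) ≠ 0 := by exact_mod_cast N.factorial_ne_zero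
    have h5 : ((N : ℝ) + 1) ≠ 0 := by positivity
    rw [one_pow, zero_pow (Nat.succ_ne_zero N)]
    field_simp
    ring

theorem powexp (N : ℕ) (x : ℝ) : x ^ (2 * N) ≤ ((2 * N).factorial : ℝ) / 16 ^ N *
    (Real.exp (4 * x) + Real.exp (-4 * x)) := by
  have h2 := Real.pow_div_factorial_le_exp (|4 * x|) (abs_nonneg _) (2 * N)
  have h3 : |4 * x| ^ (2 * N) = 16 ^ N * x ^ (2 * N) := by
    rw [pow_mul, sq_abs, mul_pow, mul_pow, pow_mul]
    norm_num
  have h4 : Real.exp |4 * x| ≤ Real.exp (4 * x) + Real.exp (-4 * x) := by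
    rcases abs_cases (4 * x) with ⟨h, _⟩ | ⟨h, _⟩
    · rw [h]
      linarith [Real.exp_pos (-4 * x)]
    · rw [h, show -(4 * x) = -4 * x by ring]
      linarith [Real.exp_pos (4 * x)]
  have h5 : (0:ℝ) < (2 * N).factorial := by exact_mod_cast Nat.factorial_pos _
  rw [h3, div_le_iff₀ h5] at h2
  have h6 : (0:ℝ) < 16 ^ N := by positivity
  rw [div_mul_eq_mul_div, le_div_iff₀ h6]
  calc x ^ (2 * N) * 16 ^ N = 16 ^ N * x ^ (2 * N) := by ring
    _ ≤ Real.exp |4 * x| * (2 * N).factorial := h2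
    _ ≤ (Real.exp (4 * x) + Real.exp (-4 * x)) * (2 * N).factorial := by gcongr
    _ = _ := by ring

theorem fact_le (N : ℕ) : ((2 * N).factorial : ℝ) ≤ 4 ^ N * (N.factorial : ℝ) ^ 2 := by
  have h6 := Nat.add_choose_mul_factorial_mul_factorial N N
  have h7 : (N + N).choose N ≤ 2 ^ (N + N) := Nat.choose_le_two_pow _ _
  have h8 : (2 * N).factorial ≤ 4 ^ N * N.factorial ^ 2 := by
    rw [two_mul, ← h6, mul_assoc, ← sq]
    refine Nat.mul_le_mul_right _ (h7.trans (le_of_eq ?_))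
    rw [← two_mul, pow_mul]
    norm_num
  exact_mod_cast h8

/-- exponential moments of a linear statistic of the random wave -/
theorem ge {γ : Measure MW} (hγ : IsRandomWave γ) (τ : ℂ →₀ ℝ) (t : ℝ) :
    Integrable (fun f => Real.exp (t * val τ f)) γ ∧
      ∫ f, Real.exp (t * val τ f) ∂γ = Real.exp (nn τ * t ^ 2 / 2) := by
  have h1 := hγ _ (pt τ) (fun j => τ (pt τ j))
  have h0 : (∑ i, ∑ j, (fun j => τ (pt τ j)) i * (fun j => τ (pt τ j)) j *
      Pool.Agent.N661.BR.J0 ‖pt τ i - pt τ j‖) = nn τ := Q_eq τ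
  rw [h0] at h1
  have h3 : Integrable (fun x : ℝ => Real.exp (t * x)) (gaussianReal 0 (nn τ).toNNReal) :=
    integrable_exp_mul_gaussianReal t
  have h4 : ∫ x, Real.exp (t * x) ∂(gaussianReal 0 (nn τ).toNNReal) =
      Real.exp ((nn τ).toNNReal * t ^ 2 / 2) := by
    have := congrFun (mgf_id_gaussianReal (μ := 0) (v := (nn τ).toNNReal)) t
    rw [zero_mul, zero_add] at this
    exact this
  rw [← h1] at h3 h4
  rw [integrable_map_measure (by fun_prop)
    (Pool.Agent.N661.BR.meas_lin _ _).aemeasurable] at h3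
  rw [integral_map (Pool.Agent.N661.BR.meas_lin _ _).aemeasurable (by fun_prop),
    Real.coe_toNNReal _ (nn_nonneg τ)] at h4
  have h6 : val τ = lin (pt τ) (fun j => τ (pt τ j)) := funext (val_lin τ)
  rw [h6]
  exact ⟨h3, h4⟩

/-- the value of a joint linear statistic -/
noncomputable def VJ {d : ℕ} (τ : Fin d → ℂ →₀ ℝ) (F : Fin d → MW) : ℝ := ∑ i, val (τ i) (F i)

theorem VJ_meas {d : ℕ} (τ : Fin d → ℂ →₀ ℝ) : Measurable (VJ τ) :=
  Finset.measurable_fun_sum _ fun i _ => (val_meas (τ i)).comp (measurable_pi_apply i)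

theorem eJ_VJ {d : ℕ} (τ : Fin d → ℂ →₀ ℝ) (F : Fin d → MW) :
    eJ τ F = Complex.exp (I * ((VJ τ F : ℝ) : ℂ)) := by
  unfold eJ VJ
  rw [Complex.ofReal_sum, Finset.mul_sum, Complex.exp_sum]
  rfl

/-- the joint linear statistic of the local fields -/
noncomputable def SJ {d : ℕ} (lam : Fin d → ℝ) (u : Fin d → ℂ → ℝ) (τ : Fin d → ℂ →₀ ℝ)
    (p : ℂ × (ℝ × Bool)) : ℝ := ∑ i, (SX (lam i) (u i) (τ i) p).re

theorem eXJ_SJ {d : ℕ} (lam : Fin d → ℝ) (u : Fin d → ℂ → ℝ) (τ : Fin d → ℂ →₀ ℝ)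
    (p : ℂ × (ℝ × Bool)) : eXJ lam u τ p = Complex.exp (I * ((SJ lam u τ p : ℝ) : ℂ)) := by
  unfold eXJ SJ
  rw [Complex.ofReal_sum, Finset.mul_sum, Complex.exp_sum]
  rfl

theorem eXJ_norm {d : ℕ} (lam : Fin d → ℝ) (u : Fin d → ℂ → ℝ) (τ : Fin d → ℂ →₀ ℝ)
    (p : ℂ × (ℝ × Bool)) : ‖eXJ lam u τ p‖ = 1 := by
  rw [eXJ_SJ, mul_comm, Complex.norm_exp_ofReal_mul_I]

theorem eXJ_meas {d : ℕ} {lam : Fin d → ℝ} {u : Fin d → ℂ → ℝ}
    (hu : ∀ i, ContDiffOn ℝ ∞ (u i) Pool.Agent.N661.BH.HP) (τ : Fin d → ℂ →₀ ℝ) :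
    Measurable (eXJ lam u τ) := by
  unfold eXJ
  exact Finset.measurable_fun_prod _ fun i _ => eX_meas (hu i) (τ i)

theorem eJ_norm {d : ℕ} (τ : Fin d → ℂ →₀ ℝ) (F : Fin d → MW) : ‖eJ τ F‖ = 1 := by
  rw [eJ_VJ, mul_comm, Complex.norm_exp_ofReal_mul_I]

theorem eJ_meas {d : ℕ} (τ : Fin d → ℂ →₀ ℝ) : Measurable (eJ τ) := by
  have h : eJ τ = fun F => Complex.exp (I * ((VJ τ F : ℝ) : ℂ)) := funext (eJ_VJ τ)
  rw [h]
  exact Complex.measurable_exp.comp
    ((Complex.measurable_ofReal.comp (VJ_meas τ)).const_mul I)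

theorem geJ {d : ℕ} {γ : Measure MW} [IsProbabilityMeasure γ] (hγ : IsRandomWave γ)
    (τ : Fin d → ℂ →₀ ℝ) (t : ℝ) :
    Integrable (fun F => Real.exp (t * VJ τ F)) (pr d γ) ∧
      ∫ F, Real.exp (t * VJ τ F) ∂(pr d γ) = Real.exp ((∑ i, nn (τ i)) * t ^ 2 / 2) := by
  have e : (fun F : Fin d → MW => Real.exp (t * VJ τ F)) =
      fun F => ∏ i, Real.exp (t * val (τ i) (F i)) := by
    funext F
    unfold VJ
    rw [Finset.mul_sum, Real.exp_sum]
  constructor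
  · rw [e]
    exact Integrable.fintype_prod (μ := fun _ : Fin d => γ)
      (f := fun i f => Real.exp (t * val (τ i) f)) fun i => (ge hγ (τ i) t).1
  · rw [e]
    have h := MeasureTheory.integral_fintype_prod_eq_prod (𝕜 := ℝ) (μ := fun _ : Fin d => γ)
      (f := fun i f => Real.exp (t * val (τ i) f))
    refine (show _ = _ from h).trans ?_
    rw [Finset.sum_mul, Finset.sum_div, Real.exp_sum]
    exact Finset.prod_congr rfl fun i _ => (ge hγ (τ i) t).2

theorem gv {d : ℕ} {γ : Measure MW} [IsProbabilityMeasure γ] (hγ : IsRandomWave γ)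
    (τ : Fin d → ℂ →₀ ℝ) (N : ℕ) :
    Integrable (fun F => VJ τ F ^ (2 * N)) (pr d γ) ∧ ∫ F, VJ τ F ^ (2 * N) ∂(pr d γ) ≤
      (N.factorial : ℝ) ^ 2 * (2 * Real.exp (8 * ∑ i, nn (τ i)) / 4 ^ N) := by
  have i4 := (geJ hγ τ 4).1
  have i4' := (geJ hγ τ (-4)).1
  have iD : Integrable (fun F => ((2 * N).factorial : ℝ) / 16 ^ N *
      (Real.exp (4 * VJ τ F) + Real.exp (-4 * VJ τ F))) (pr d γ) := (i4.add i4').const_mul _
  have hi : Integrable (fun F => VJ τ F ^ (2 * N)) (pr d γ) := by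
    refine iD.mono' ((VJ_meas τ).pow_const _).aestronglyMeasurable
      (Eventually.of_forall fun F => ?_)
    rw [Real.norm_eq_abs, abs_of_nonneg (by rw [pow_mul]; positivity)]
    exact powexp N _
  refine ⟨hi, ?_⟩
  have h3 := integral_mono hi iD fun F => powexp N (VJ τ F)
  have h4 : ∫ F, ((2 * N).factorial : ℝ) / 16 ^ N *
      (Real.exp (4 * VJ τ F) + Real.exp (-4 * VJ τ F)) ∂(pr d γ) =
      ((2 * N).factorial : ℝ) / 16 ^ N * (2 * Real.exp (8 * ∑ i, nn (τ i))) := by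
    rw [integral_const_mul, integral_add i4 i4', (geJ hγ τ 4).2, (geJ hγ τ (-4)).2,
      show (∑ i, nn (τ i)) * 4 ^ 2 / 2 = 8 * ∑ i, nn (τ i) by ring,
      show (∑ i, nn (τ i)) * (-4) ^ 2 / 2 = 8 * ∑ i, nn (τ i) by ring]
    ring
  refine h3.trans ?_
  rw [h4]
  have h5 := fact_le N
  calc ((2 * N).factorial : ℝ) / 16 ^ N * (2 * Real.exp (8 * ∑ i, nn (τ i)))
      ≤ 4 ^ N * (N.factorial : ℝ) ^ 2 / 16 ^ N * (2 * Real.exp (8 * ∑ i, nn (τ i))) := by gcongr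
    _ = _ := by
      rw [show (16:ℝ) ^ N = 4 ^ N * 4 ^ N by rw [← mul_pow]; norm_num]
      have : (4:ℝ) ^ N ≠ 0 := by positivity
      field_simp

section alg

variable {n : ℕ} {σ : Type} (c : Fin n → ℂ) (L : Fin n → MvPolynomial σ ℝ)

/-- the real part -/
noncomputable def PR (N : ℕ) : MvPolynomial σ ℝ :=
  ∑ m, ∑ j ∈ Finset.range N, MvPolynomial.C ((c m * I ^ j / (j.factorial : ℂ)).re) * L m ^ j

/-- the imaginary part -/
noncomputable def PJ (N : ℕ) : MvPolynomial σ ℝ :=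
  ∑ m, ∑ j ∈ Finset.range N, MvPolynomial.C ((c m * I ^ j / (j.factorial : ℂ)).im) * L m ^ j

/-- the Taylor polynomial -/
noncomputable def PN (N : ℕ) (y : Fin n → ℝ) : ℂ :=
  ∑ m, c m * ∑ j ∈ Finset.range N, (I * (y m : ℂ)) ^ j / (j.factorial : ℂ)

/-- the trigonometric sum -/
noncomputable def TT (y : Fin n → ℝ) : ℂ := ∑ m, c m * Complex.exp (I * (y m : ℂ))

theorem PN_eq (N : ℕ) (x : σ → ℝ) : PN c N (fun m => MvPolynomial.eval x (L m)) =
    ((MvPolynomial.eval x (PR c L N) : ℝ) : ℂ) +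
      ((MvPolynomial.eval x (PJ c L N) : ℝ) : ℂ) * I := by
  unfold PN PR PJ
  simp only [map_sum, map_mul, map_pow, MvPolynomial.eval_C]
  push_cast
  rw [Finset.sum_mul, ← Finset.sum_add_distrib]
  refine Finset.sum_congr rfl fun m _ => ?_
  rw [Finset.sum_mul, ← Finset.sum_add_distrib, Finset.mul_sum]
  refine Finset.sum_congr rfl fun j _ => ?_
  have h := Complex.re_add_im (c m * I ^ j / (j.factorial : ℂ))
  calc c m * ((I * ((MvPolynomial.eval x (L m) : ℝ) : ℂ)) ^ j / (j.factorial : ℂ))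
      = (c m * I ^ j / (j.factorial : ℂ)) * ((MvPolynomial.eval x (L m) : ℝ) : ℂ) ^ j := by
        rw [mul_pow]
        ring
    _ = (((c m * I ^ j / (j.factorial : ℂ)).re : ℂ) + ((c m * I ^ j / (j.factorial : ℂ)).im : ℂ) * I) *
        ((MvPolynomial.eval x (L m) : ℝ) : ℂ) ^ j := by rw [h]
    _ = _ := by ring

theorem TT_sub (N : ℕ) (y : Fin n → ℝ) : ‖TT c y - PN c (2 * N) y‖ ≤
    ∑ m, ‖c m‖ / (2 * N).factorial * y m ^ (2 * N) := by
  unfold TT PN
  rw [← Finset.sum_sub_distrib]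
  refine norm_sum_le_of_le _ fun m _ => ?_
  rw [← mul_sub, norm_mul]
  have h := tayl (2 * N) (y m)
  rw [pow_mul, sq_abs, ← pow_mul] at h
  calc ‖c m‖ * ‖_‖ ≤ ‖c m‖ * (y m ^ (2 * N) / (2 * N).factorial) := by gcongr
    _ = _ := by ring

theorem sq_TT (N : ℕ) (y : Fin n → ℝ) : ‖TT c y - PN c (2 * N) y‖ ^ 2 ≤
    ∑ m, n * (‖c m‖ ^ 2 / ((2 * N).factorial : ℝ) ^ 2) * y m ^ (2 * (2 * N)) := by
  have h := pow_le_pow_left₀ (norm_nonneg _) (TT_sub c N y) 2
  refine h.trans ((sq_sum_le_card_mul_sum_sq).trans (le_of_eq ?_))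
  rw [Finset.mul_sum, Finset.card_univ, Fintype.card_fin]
  refine Finset.sum_congr rfl fun m _ => ?_
  rw [mul_pow, div_pow, ← pow_mul, mul_comm (2 * N) 2]
  ring

end alg

/-- a family of finitely supported functions is given by lists of points and coefficients -/
lemma repr_fs {d n : ℕ} (U : Fin d → Set ℂ) (z : Fin d → ℂ) (hz : ∀ i, z i ∈ U i)
    (τ : Fin n → Fin d → ℂ →₀ ℝ) (hin : ∀ m, In U (τ m)) :
    ∃ (k : ℕ) (w : Fin d → Fin k → ℂ) (t : Fin n → Fin d → Fin k → ℝ),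
      (∀ i j, w i j ∈ U i) ∧ (∀ m i, τ m i = 0 → t m i = 0) ∧
      ∀ m i, fs (w i) (t m i) = τ m i := by
  classical
  let J : Finset ℂ := Finset.univ.biUnion fun m => Finset.univ.biUnion fun i => (τ m i).support
  refine ⟨J.card, fun i j => if ((J.equivFin.symm j : J) : ℂ) ∈ U i then
      ((J.equivFin.symm j : J) : ℂ) else z i,
    fun m i j => τ m i ((J.equivFin.symm j : J) : ℂ), fun i j => ?_, fun m i h => ?_,
    fun m i => ?_⟩
  · show (if ((J.equivFin.symm j : J) : ℂ) ∈ U i then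
      ((J.equivFin.symm j : J) : ℂ) else z i) ∈ U i
    split_ifs with h
    · exact h
    · exact hz i
  · funext j
    show τ m i _ = 0
    rw [h]
    rfl
  · have h1 : (τ m i).support ⊆ J := by
      intro x hx
      exact Finset.mem_biUnion.2 ⟨m, Finset.mem_univ _, Finset.mem_biUnion.2
        ⟨i, Finset.mem_univ _, hx⟩⟩
    have h2 : ∀ x : ℂ, Finsupp.single (if x ∈ U i then x else z i) (τ m i x) =
        Finsupp.single x (τ m i x) := by
      intro x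
      split_ifs with h
      · rfl
      · have h0 : τ m i x = 0 := by
          by_contra h3
          exact h (hin m i (Finsupp.mem_support_iff.2 h3))
        rw [h0, Finsupp.single_zero, Finsupp.single_zero]
    unfold fs
    simp only [h2]
    rw [Equiv.sum_comp J.equivFin.symm (fun x : J => Finsupp.single (x : ℂ) (τ m i (x : ℂ))),
      Finset.sum_coe_sort J fun x => Finsupp.single x (τ m i x),
      ← Finset.sum_subset h1 (fun x _ hx => by
        rw [Finsupp.notMem_support_iff.1 hx, Finsupp.single_zero])]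
    exact Finsupp.sum_single (τ m i)

theorem iv {d : ℕ} {γ : Measure MW} [IsProbabilityMeasure γ] (hγ : IsRandomWave γ)
    (τ : Fin d → ℂ →₀ ℝ) (j : ℕ) : MemLp (fun F => VJ τ F ^ j) 2 (pr d γ) := by
  have h := (gv hγ τ j).1
  have hm : AEStronglyMeasurable (fun F => VJ τ F ^ j) (pr d γ) :=
    ((VJ_meas τ).pow_const j).aestronglyMeasurable
  rw [memLp_two_iff_integrable_sq hm]
  refine h.congr (Eventually.of_forall fun F => ?_)
  show VJ τ F ^ (2 * j) = (VJ τ F ^ j) ^ 2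
  rw [← pow_mul, mul_comm]

theorem ip {d : ℕ} {γ : Measure MW} [IsProbabilityMeasure γ] (hγ : IsRandomWave γ) {n : ℕ}
    (τ : Fin n → Fin d → ℂ →₀ ℝ) (N : ℕ) (a : Fin n → ℕ → ℝ) :
    MemLp (fun F => ∑ m, ∑ j ∈ Finset.range N, a m j * VJ (τ m) F ^ j) 2 (pr d γ) :=
  memLp_finsetSum _ fun m _ => memLp_finsetSum _ fun j _ => (iv hγ (τ m) j).const_mul _

theorem jt (h1 : S_JB) (_h2 : S_GM) : S_JT := by
  intro d Ω lam u hd H γ hγp hγ ψ hψ h0 U hU A hPB
  obtain ⟨C, hC⟩ := hPB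
  have := probP (H ⟨0, hd⟩)
  have hm := mpos (H ⟨0, hd⟩)
  have hprob : IsProbabilityMeasure (pr d γ) := by
    unfold pr
    infer_instance
  obtain ⟨C₁, hC₁⟩ : ∃ C₁ : ℝ, C₁ = |C| / mass Ω ^ 2 := ⟨_, rfl⟩
  have hC0 : 0 ≤ C₁ := by rw [hC₁]; positivity
  have key : ∀ (k : ℕ) (w : Fin d → Fin k → ℂ) (Q : MvPolynomial (Fin d × Fin k) ℝ),
      (∀ i j, w i j ∈ U i) → (∀ q ∈ Q.vars, q.1 ∈ A) →
      ∀ ε : ℝ, 0 < ε → ∀ᶠ l in atTop,
        Integrable (fun p => ψ p.1 * MvPolynomial.eval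
          (fun q : Fin d × Fin k => Xr (lam q.1 l) (u q.1 l) (w q.1 q.2) p) Q) (P Ω) ∧
        (∫ p, ψ p.1 * MvPolynomial.eval
          (fun q : Fin d × Fin k => Xr (lam q.1 l) (u q.1 l) (w q.1 q.2) p) Q ∂(P Ω)) ^ 2 ≤
          C₁ * (∫ F : Fin d → MW, MvPolynomial.eval (fun q : Fin d × Fin k =>
            F q.1 (w q.1 q.2)) Q ^ 2 ∂(pr d γ)) + ε := by
    intro k w Q hw hQ ε hε
    filter_upwards [hC k w Q hw hQ (ε * mass Ω ^ 2) (by positivity),
      h1 d Ω lam u hd H ψ hψ k w Q] with l a b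
    refine ⟨b.1, ?_⟩
    rw [b.2, mul_pow] at a
    change mass Ω ^ 2 * _ ≤ C * (∫ F : Fin d → MW, MvPolynomial.eval (fun q : Fin d × Fin k =>
            F q.1 (w q.1 q.2)) Q ^ 2 ∂(pr d γ)) + ε * mass Ω ^ 2 at a
    have hE : 0 ≤ ∫ F : Fin d → MW, MvPolynomial.eval (fun q : Fin d × Fin k =>
        F q.1 (w q.1 q.2)) Q ^ 2 ∂(pr d γ) := integral_nonneg fun f => sq_nonneg _
    obtain ⟨E, hEe⟩ : ∃ E : ℝ, E = ∫ F : Fin d → MW, MvPolynomial.eval (fun q : Fin d × Fin k =>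
        F q.1 (w q.1 q.2)) Q ^ 2 ∂(pr d γ) := ⟨_, rfl⟩
    rw [← hEe] at hE a ⊢
    have h3 : C * E ≤ |C| * E := mul_le_mul_of_nonneg_right (le_abs_self C) hE
    have h4 : (0 : ℝ) < mass Ω ^ 2 := by positivity
    rw [hC₁]
    have h5 : |C| / mass Ω ^ 2 * E + ε = (|C| * E + ε * mass Ω ^ 2) / mass Ω ^ 2 := by
      field_simp
    rw [h5, le_div_iff₀ h4]
    linarith
  refine ⟨4 * C₁, fun n c τ hon hin ε hε => ?_⟩
  classical
  choose z hz using hU
  obtain ⟨k, w, t, hw, ht0, hfs⟩ := repr_fs U z hz τ hin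
  obtain ⟨L, hLd⟩ : ∃ L : Fin n → MvPolynomial (Fin d × Fin k) ℝ, L = fun m =>
      ∑ i ∈ A, ∑ j, MvPolynomial.C (t m i j) * MvPolynomial.X (i, j) := ⟨_, rfl⟩
  have hLs : ∀ m, L m ∈ MvPolynomial.supported ℝ {q : Fin d × Fin k | q.1 ∈ A} := by
    intro m
    rw [hLd]
    refine sum_mem fun i hi => sum_mem fun j _ => mul_mem (Subalgebra.algebraMap_mem _ _) ?_
    exact MvPolynomial.X_mem_supported.2 hi
  have hvars : ∀ Q : MvPolynomial (Fin d × Fin k) ℝ,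
      Q ∈ MvPolynomial.supported ℝ {q : Fin d × Fin k | q.1 ∈ A} → ∀ q ∈ Q.vars, q.1 ∈ A := by
    intro Q hQ q hq
    exact (MvPolynomial.mem_supported.1 hQ) hq
  have ht : ∀ m i, i ∉ A → ∀ j, t m i j = 0 := by
    intro m i hi j
    rw [ht0 m i (hon m i hi)]
    rfl
  have hX : ∀ (l : ℕ) (p : ℂ × (ℝ × Bool)) (m : Fin n),
      MvPolynomial.eval (fun q : Fin d × Fin k => Xr (lam q.1 l) (u q.1 l) (w q.1 q.2) p) (L m) =
        SJ (fun i => lam i l) (fun i => u i l) (τ m) p := by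
    intro l p m
    rw [hLd]
    simp only [map_sum, map_mul, MvPolynomial.eval_C, MvPolynomial.eval_X]
    unfold SJ
    rw [Finset.sum_subset (Finset.subset_univ A) fun i _ hi =>
      Finset.sum_eq_zero fun j _ => by rw [ht m i hi j, zero_mul]]
    refine Finset.sum_congr rfl fun i _ => ?_
    rw [← hfs m i, SX_fs, Complex.re_sum]
    refine Finset.sum_congr rfl fun j _ => ?_
    unfold Xr
    rw [Complex.re_ofReal_mul]
  have hV : ∀ (F : Fin d → MW) (m : Fin n),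
      MvPolynomial.eval (fun q : Fin d × Fin k => F q.1 (w q.1 q.2)) (L m) = VJ (τ m) F := by
    intro F m
    rw [hLd]
    simp only [map_sum, map_mul, MvPolynomial.eval_C, MvPolynomial.eval_X]
    unfold VJ
    rw [Finset.sum_subset (Finset.subset_univ A) fun i _ hi =>
      Finset.sum_eq_zero fun j _ => by rw [ht m i hi j, zero_mul]]
    refine Finset.sum_congr rfl fun i _ => ?_
    rw [← hfs m i, val_fs]
    rfl
  have hPRs : ∀ N, PR c L N ∈ MvPolynomial.supported ℝ {q : Fin d × Fin k | q.1 ∈ A} := by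
    intro N
    unfold PR
    exact sum_mem fun m _ => sum_mem fun j _ =>
      mul_mem (Subalgebra.algebraMap_mem _ _) (pow_mem (hLs m) _)
  have hPJs : ∀ N, PJ c L N ∈ MvPolynomial.supported ℝ {q : Fin d × Fin k | q.1 ∈ A} := by
    intro N
    unfold PJ
    exact sum_mem fun m _ => sum_mem fun j _ =>
      mul_mem (Subalgebra.algebraMap_mem _ _) (pow_mem (hLs m) _)
  -- the choice of the degree
  obtain ⟨K0, hK0⟩ : ∃ K0 : ℝ, K0 = ∑ m, (n : ℝ) * ‖c m‖ ^ 2 * (2 * Real.exp (8 * ∑ i, nn (τ m i))) :=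
    ⟨_, rfl⟩
  have hK00 : 0 ≤ K0 := by
    rw [hK0]
    exact Finset.sum_nonneg fun m _ => by positivity
  obtain ⟨η, hη⟩ : ∃ η : ℝ, η = ε / (12 * C₁ + 1) := ⟨_, rfl⟩
  have hη0 : 0 < η := by rw [hη]; positivity
  obtain ⟨N, hN⟩ := pow_unbounded_of_one_lt (K0 / η) (by norm_num : (1:ℝ) < 16)
  obtain ⟨F, hF⟩ : ∃ F : ℝ, F = ((2 * N).factorial : ℝ) := ⟨_, rfl⟩
  have hF0 : 0 < F := by rw [hF]; exact_mod_cast Nat.factorial_pos _
  obtain ⟨Δ, hΔ⟩ : ∃ Δ : ℝ, Δ = ∑ m, n * (‖c m‖ ^ 2 / F ^ 2) *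
      ∫ f, VJ (τ m) f ^ (2 * (2 * N)) ∂(pr d γ) := ⟨_, rfl⟩
  have hΔ0 : 0 ≤ Δ := by
    rw [hΔ]
    refine Finset.sum_nonneg fun m _ => mul_nonneg (by positivity) (integral_nonneg fun f => ?_)
    show 0 ≤ VJ (τ m) f ^ (2 * (2 * N))
    rw [pow_mul]
    positivity
  have hΔη : Δ ≤ η := by
    have h3 : Δ ≤ K0 / 16 ^ N := by
      rw [hΔ, hK0, Finset.sum_div]
      refine Finset.sum_le_sum fun m _ => ?_
      have h4 := (gv hγ (τ m) (2 * N)).2
      rw [← hF] at h4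
      calc n * (‖c m‖ ^ 2 / F ^ 2) * ∫ f, VJ (τ m) f ^ (2 * (2 * N)) ∂(pr d γ)
          ≤ n * (‖c m‖ ^ 2 / F ^ 2) * (F ^ 2 * (2 * Real.exp (8 * ∑ i, nn (τ m i)) / 4 ^ (2 * N))) := by
            gcongr
        _ = _ := by
            rw [pow_mul]
            have : (4:ℝ) ^ 2 = 16 := by norm_num
            rw [this]
            field_simp
    refine h3.trans ?_
    have h4 : (0:ℝ) < 16 ^ N := by positivity
    rw [div_le_iff₀ h4]
    rw [div_lt_iff₀ hη0] at hN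
    linarith
  -- the real polynomials
  obtain ⟨R, hR⟩ : ∃ R, R = PR c L (2 * N) := ⟨_, rfl⟩
  obtain ⟨J, hJ⟩ : ∃ J, J = PJ c L (2 * N) := ⟨_, rfl⟩
  have eRJ : ∀ x : Fin d × Fin k → ℝ, PN c (2 * N) (fun m => MvPolynomial.eval x (L m)) =
      ((MvPolynomial.eval x R : ℝ) : ℂ) + ((MvPolynomial.eval x J : ℝ) : ℂ) * I := by
    intro x
    rw [hR, hJ]
    exact PN_eq c L (2 * N) x
  have mR : MemLp (fun f : Fin d → MW => MvPolynomial.eval (fun q : Fin d × Fin k => f q.1 (w q.1 q.2)) R) 2 (pr d γ) := by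
    have h3 := ip hγ τ (2 * N) (fun m j => (c m * I ^ j / (j.factorial : ℂ)).re)
    have h4 : (fun f : Fin d → MW => MvPolynomial.eval (fun q : Fin d × Fin k => f q.1 (w q.1 q.2)) R) = fun f =>
        ∑ m, ∑ j ∈ Finset.range (2 * N), (c m * I ^ j / (j.factorial : ℂ)).re * VJ (τ m) f ^ j := by
      funext f
      rw [hR]
      unfold PR
      simp only [map_sum, map_mul, map_pow, MvPolynomial.eval_C, hV]
    rw [h4]
    exact h3
  have mJ : MemLp (fun f : Fin d → MW => MvPolynomial.eval (fun q : Fin d × Fin k => f q.1 (w q.1 q.2)) J) 2 (pr d γ) := by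
    have h3 := ip hγ τ (2 * N) (fun m j => (c m * I ^ j / (j.factorial : ℂ)).im)
    have h4 : (fun f : Fin d → MW => MvPolynomial.eval (fun q : Fin d × Fin k => f q.1 (w q.1 q.2)) J) = fun f =>
        ∑ m, ∑ j ∈ Finset.range (2 * N), (c m * I ^ j / (j.factorial : ℂ)).im * VJ (τ m) f ^ j := by
      funext f
      rw [hJ]
      unfold PJ
      simp only [map_sum, map_mul, map_pow, MvPolynomial.eval_C, hV]
    rw [h4]
    exact h3
  -- the estimate for the random wave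
  obtain ⟨T, hT⟩ : ∃ T : ℝ, T = ∫ f, ‖∑ m, c m * eJ (τ m) f‖ ^ 2 ∂(pr d γ) := ⟨_, rfl⟩
  have hRJ : (∫ f : Fin d → MW, MvPolynomial.eval (fun q : Fin d × Fin k => f q.1 (w q.1 q.2)) R ^ 2 ∂(pr d γ)) +
      (∫ f : Fin d → MW, MvPolynomial.eval (fun q : Fin d × Fin k => f q.1 (w q.1 q.2)) J ^ 2 ∂(pr d γ)) ≤ 2 * T + 2 * Δ := by
    have iR := mR.integrable_sq
    have iJ := mJ.integrable_sq
    rw [← integral_add iR iJ, hT, hΔ]
    have iT : Integrable (fun f => ‖∑ m, c m * eJ (τ m) f‖ ^ 2) (pr d γ) := by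
      refine Integrable.of_bound (C := (∑ m, ‖c m‖) ^ 2) ?_ (Eventually.of_forall fun f => ?_)
      · refine (Measurable.aestronglyMeasurable ?_)
        exact (Finset.measurable_fun_sum _ fun m _ =>
          (eJ_meas (τ m)).const_mul _).norm.pow_const 2
      · rw [Real.norm_eq_abs, abs_of_nonneg (sq_nonneg _)]
        refine pow_le_pow_left₀ (norm_nonneg _) (norm_sum_le_of_le _ fun m _ => ?_) 2
        rw [norm_mul, eJ_norm, mul_one]
    have iy : ∀ m, Integrable (fun f => n * (‖c m‖ ^ 2 / F ^ 2) *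
        VJ (τ m) f ^ (2 * (2 * N))) (pr d γ) := fun m => ((gv hγ (τ m) (2 * N)).1).const_mul _
    have iS : Integrable (fun f => ∑ m, n * (‖c m‖ ^ 2 / F ^ 2) *
        VJ (τ m) f ^ (2 * (2 * N))) (pr d γ) := integrable_finsetSum _ fun m _ => iy m
    have e1 : 2 * ∫ f, ‖∑ m, c m * eJ (τ m) f‖ ^ 2 ∂(pr d γ) + 2 * ∑ m, n * (‖c m‖ ^ 2 / F ^ 2) *
        ∫ f, VJ (τ m) f ^ (2 * (2 * N)) ∂(pr d γ) = ∫ f, (2 * ‖∑ m, c m * eJ (τ m) f‖ ^ 2 +
          2 * ∑ m, n * (‖c m‖ ^ 2 / F ^ 2) * VJ (τ m) f ^ (2 * (2 * N))) ∂(pr d γ) := by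
      rw [integral_add (iT.const_mul 2) (iS.const_mul 2), integral_const_mul, integral_const_mul,
        integral_finsetSum _ fun m _ => iy m]
      congr 2
      refine Finset.sum_congr rfl fun m _ => ?_
      rw [integral_const_mul]
    rw [e1]
    refine integral_mono (iR.add iJ) ((iT.const_mul 2).add (iS.const_mul 2)) fun f => ?_
    show MvPolynomial.eval (fun q : Fin d × Fin k => f q.1 (w q.1 q.2)) R ^ 2 + MvPolynomial.eval (fun q : Fin d × Fin k => f q.1 (w q.1 q.2)) J ^ 2 ≤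
      2 * ‖∑ m, c m * eJ (τ m) f‖ ^ 2 + 2 * ∑ m, n * (‖c m‖ ^ 2 / F ^ 2) *
        VJ (τ m) f ^ (2 * (2 * N))
    have e2 : MvPolynomial.eval (fun q : Fin d × Fin k => f q.1 (w q.1 q.2)) R ^ 2 +
        MvPolynomial.eval (fun q : Fin d × Fin k => f q.1 (w q.1 q.2)) J ^ 2 = ‖PN c (2 * N) (fun m => VJ (τ m) f)‖ ^ 2 := by
      have e3 := eRJ (fun q : Fin d × Fin k => f q.1 (w q.1 q.2))
      simp only [hV] at e3
      rw [e3, Complex.sq_norm, Complex.normSq_add_mul_I]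
    have e3 : ∑ m, c m * eJ (τ m) f = TT c (fun m => VJ (τ m) f) := by
      unfold TT
      exact Finset.sum_congr rfl fun m _ => by rw [eJ_VJ]
    rw [e2, e3]
    have e4 := sq_TT c N (fun m => VJ (τ m) f)
    rw [← hF] at e4
    have e5 : ‖PN c (2 * N) (fun m => VJ (τ m) f)‖ ≤ ‖TT c (fun m => VJ (τ m) f)‖ +
        ‖TT c (fun m => VJ (τ m) f) - PN c (2 * N) (fun m => VJ (τ m) f)‖ := by
      have := norm_sub_le (TT c (fun m => VJ (τ m) f))
        (TT c (fun m => VJ (τ m) f) - PN c (2 * N) (fun m => VJ (τ m) f))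
      rwa [sub_sub_cancel] at this
    have e6 := norm_nonneg (PN c (2 * N) (fun m => VJ (τ m) f))
    have e7 : ‖PN c (2 * N) (fun m => VJ (τ m) f)‖ ^ 2 ≤ (‖TT c (fun m => VJ (τ m) f)‖ +
        ‖TT c (fun m => VJ (τ m) f) - PN c (2 * N) (fun m => VJ (τ m) f)‖) ^ 2 :=
      pow_le_pow_left₀ e6 e5 2
    nlinarith [sq_nonneg (‖TT c (fun m => VJ (τ m) f)‖ -
      ‖TT c (fun m => VJ (τ m) f) - PN c (2 * N) (fun m => VJ (τ m) f)‖)]
  -- the choice of the small number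
  obtain ⟨ε₁, hε₁⟩ : ∃ ε₁ : ℝ, ε₁ = ε / (2 * (4 + 2 * ∑ m, n * (‖c m‖ ^ 2 / F ^ 2))) := ⟨_, rfl⟩
  have hden : 0 < 4 + 2 * ∑ m, (n : ℝ) * (‖c m‖ ^ 2 / F ^ 2) := by
    have : 0 ≤ ∑ m, (n : ℝ) * (‖c m‖ ^ 2 / F ^ 2) := Finset.sum_nonneg fun m _ => by positivity
    linarith
  have hε1 : 0 < ε₁ := by rw [hε₁]; positivity
  have hall := eventually_all.2 fun m : Fin n => key _ w (L m ^ (2 * N)) hw (hvars _ (pow_mem (hLs m) _)) ε₁ hε1
  filter_upwards [key _ w R hw (hvars _ (by rw [hR]; exact hPRs _)) ε₁ hε1,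
    key _ w J hw (hvars _ (by rw [hJ]; exact hPJs _)) ε₁ hε1, hall] with l a b dd
  obtain ⟨bψ, hbψ⟩ := hψ.2.1.exists_bound_of_continuous hψ.1.continuous
  have hmψ : Measurable fun p : ℂ × (ℝ × Bool) => ψ p.1 :=
    hψ.1.continuous.measurable.comp measurable_fst
  have iE : ∀ m, Integrable (fun p => (ψ p.1 : ℂ) * eXJ (fun i => lam i l) (fun i => u i l) (τ m) p) (P Ω) := by
    intro m
    refine Integrable.of_bound (C := bψ) ?_ (Eventually.of_forall fun p => ?_)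
    · exact ((Complex.measurable_ofReal.comp hmψ).mul (eXJ_meas (fun i => (H i).sm l) (τ m))).aestronglyMeasurable
    · rw [norm_mul, eXJ_norm, mul_one, Complex.norm_real]
      exact hbψ p.1
  have e1 : ∑ m, c m * ∫ p, (ψ p.1 : ℂ) * eXJ (fun i => lam i l) (fun i => u i l) (τ m) p ∂(P Ω) =
      ∫ p, (ψ p.1 : ℂ) * TT c (fun m => SJ (fun i => lam i l) (fun i => u i l) (τ m) p) ∂(P Ω) := by
    have e2 : ∀ m, c m * ∫ p, (ψ p.1 : ℂ) * eXJ (fun i => lam i l) (fun i => u i l) (τ m) p ∂(P Ω) =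
        ∫ p, c m * ((ψ p.1 : ℂ) * eXJ (fun i => lam i l) (fun i => u i l) (τ m) p) ∂(P Ω) := fun m =>
      (integral_const_mul _ _).symm
    rw [Finset.sum_congr rfl fun m _ => e2 m, ← integral_finsetSum _ fun m _ => (iE m).const_mul _]
    refine integral_congr_ae (Eventually.of_forall fun p => ?_)
    show ∑ m, c m * ((ψ p.1 : ℂ) * eXJ (fun i => lam i l) (fun i => u i l) (τ m) p) =
      (ψ p.1 : ℂ) * ∑ m, c m * Complex.exp (I * ((SJ (fun i => lam i l) (fun i => u i l) (τ m) p : ℝ) : ℂ))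
    rw [Finset.mul_sum]
    refine Finset.sum_congr rfl fun m _ => ?_
    rw [eXJ_SJ]
    ring
  have iTT : Integrable (fun p => (ψ p.1 : ℂ) *
      TT c (fun m => SJ (fun i => lam i l) (fun i => u i l) (τ m) p)) (P Ω) := by
    refine (integrable_finsetSum Finset.univ fun m _ => (iE m).const_mul (c m)).congr
      (Eventually.of_forall fun p => ?_)
    show ∑ m, c m * ((ψ p.1 : ℂ) * eXJ (fun i => lam i l) (fun i => u i l) (τ m) p) =
      (ψ p.1 : ℂ) * ∑ m, c m * Complex.exp (I * ((SJ (fun i => lam i l) (fun i => u i l) (τ m) p : ℝ) : ℂ))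
    rw [Finset.mul_sum]
    refine Finset.sum_congr rfl fun m _ => ?_
    rw [eXJ_SJ]
    ring
  have ePN : ∀ p, (ψ p.1 : ℂ) * PN c (2 * N) (fun m => SJ (fun i => lam i l) (fun i => u i l) (τ m) p) =
      ((ψ p.1 * MvPolynomial.eval (fun q : Fin d × Fin k => Xr (lam q.1 l) (u q.1 l) (w q.1 q.2) p) R : ℝ) : ℂ) +
        ((ψ p.1 * MvPolynomial.eval (fun q : Fin d × Fin k => Xr (lam q.1 l) (u q.1 l) (w q.1 q.2) p) J : ℝ) : ℂ) * I := by
    intro p
    have e3 := eRJ (fun q : Fin d × Fin k => Xr (lam q.1 l) (u q.1 l) (w q.1 q.2) p)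
    simp only [hX] at e3
    rw [e3]
    push_cast
    ring
  have iR' : Integrable (fun p => ((ψ p.1 *
      MvPolynomial.eval (fun q : Fin d × Fin k => Xr (lam q.1 l) (u q.1 l) (w q.1 q.2) p) R : ℝ) : ℂ)) (P Ω) := a.1.ofReal
  have iJ' : Integrable (fun p => ((ψ p.1 *
      MvPolynomial.eval (fun q : Fin d × Fin k => Xr (lam q.1 l) (u q.1 l) (w q.1 q.2) p) J : ℝ) : ℂ) * I) (P Ω) :=
    (b.1.ofReal).mul_const I
  have iPN : Integrable (fun p => (ψ p.1 : ℂ) *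
      PN c (2 * N) (fun m => SJ (fun i => lam i l) (fun i => u i l) (τ m) p)) (P Ω) := by
    refine (iR'.add iJ').congr (Eventually.of_forall fun p => ?_)
    exact (ePN p).symm
  have e2 : ∫ p, (ψ p.1 : ℂ) * PN c (2 * N) (fun m => SJ (fun i => lam i l) (fun i => u i l) (τ m) p) ∂(P Ω) =
      ((∫ p, ψ p.1 * MvPolynomial.eval (fun q : Fin d × Fin k => Xr (lam q.1 l) (u q.1 l) (w q.1 q.2) p) R ∂(P Ω) : ℝ) : ℂ) +
      ((∫ p, ψ p.1 * MvPolynomial.eval (fun q : Fin d × Fin k => Xr (lam q.1 l) (u q.1 l) (w q.1 q.2) p) J ∂(P Ω) : ℝ) : ℂ) *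
        I := by
    rw [integral_congr_ae (Eventually.of_forall ePN), integral_add iR' iJ', integral_mul_const,
      integral_complex_ofReal, integral_complex_ofReal]
  have hd1 : ∀ m, Integrable (fun p => ψ p.1 * SJ (fun i => lam i l) (fun i => u i l) (τ m) p ^ (2 * N)) (P Ω) := by
    intro m
    have := (dd m).1
    simp only [map_pow, hX] at this
    exact this
  have hd2 : ∀ m, (∫ p, ψ p.1 * SJ (fun i => lam i l) (fun i => u i l) (τ m) p ^ (2 * N) ∂(P Ω)) ^ 2 ≤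
      C₁ * (∫ f : Fin d → MW, VJ (τ m) f ^ (2 * (2 * N)) ∂(pr d γ)) + ε₁ := by
    intro m
    have h3 := (dd m).2
    simp only [map_pow, hX, hV] at h3
    have h4 : ∀ f : Fin d → MW, (VJ (τ m) f ^ (2 * N)) ^ 2 = VJ (τ m) f ^ (2 * (2 * N)) := by
      intro f
      rw [← pow_mul, mul_comm (2 * N) 2]
    simp only [h4] at h3
    exact h3
  have e3 : ‖∫ p, ((ψ p.1 : ℂ) * TT c (fun m => SJ (fun i => lam i l) (fun i => u i l) (τ m) p) -
      (ψ p.1 : ℂ) * PN c (2 * N) (fun m => SJ (fun i => lam i l) (fun i => u i l) (τ m) p)) ∂(P Ω)‖ ≤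
      ∑ m, ‖c m‖ / F * ∫ p, ψ p.1 * SJ (fun i => lam i l) (fun i => u i l) (τ m) p ^ (2 * N) ∂(P Ω) := by
    have e4 : ∑ m, ‖c m‖ / F * ∫ p, ψ p.1 * SJ (fun i => lam i l) (fun i => u i l) (τ m) p ^ (2 * N) ∂(P Ω) =
        ∫ p, ∑ m, ‖c m‖ / F * (ψ p.1 * SJ (fun i => lam i l) (fun i => u i l) (τ m) p ^ (2 * N)) ∂(P Ω) := by
      rw [integral_finsetSum _ fun m _ => (hd1 m).const_mul _]
      exact Finset.sum_congr rfl fun m _ => (integral_const_mul _ _).symm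
    rw [e4]
    refine norm_integral_le_of_norm_le
      (integrable_finsetSum _ fun m _ => (hd1 m).const_mul _) (Eventually.of_forall fun p => ?_)
    rw [← mul_sub, norm_mul, Complex.norm_real, Real.norm_eq_abs, abs_of_nonneg (h0 p.1)]
    have e5 := TT_sub c N (fun m => SJ (fun i => lam i l) (fun i => u i l) (τ m) p)
    rw [← hF] at e5
    calc ψ p.1 * ‖_‖ ≤ ψ p.1 * ∑ m, ‖c m‖ / F * SJ (fun i => lam i l) (fun i => u i l) (τ m) p ^ (2 * N) :=
          mul_le_mul_of_nonneg_left e5 (h0 p.1)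
      _ = _ := by
        rw [Finset.mul_sum]
        exact Finset.sum_congr rfl fun m _ => by ring
  have e4 : ‖∫ p, ((ψ p.1 : ℂ) * TT c (fun m => SJ (fun i => lam i l) (fun i => u i l) (τ m) p) -
      (ψ p.1 : ℂ) * PN c (2 * N) (fun m => SJ (fun i => lam i l) (fun i => u i l) (τ m) p)) ∂(P Ω)‖ ^ 2 ≤
      C₁ * Δ + (∑ m, n * (‖c m‖ ^ 2 / F ^ 2)) * ε₁ := by
    refine (pow_le_pow_left₀ (norm_nonneg _) e3 2).trans ?_
    refine (sq_sum_le_card_mul_sum_sq).trans ?_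
    rw [Finset.card_univ, Fintype.card_fin, hΔ, Finset.mul_sum, Finset.mul_sum, Finset.sum_mul,
      ← Finset.sum_add_distrib]
    refine Finset.sum_le_sum fun m _ => ?_
    rw [mul_pow, div_pow]
    calc (n : ℝ) * (‖c m‖ ^ 2 / F ^ 2 *
          (∫ p, ψ p.1 * SJ (fun i => lam i l) (fun i => u i l) (τ m) p ^ (2 * N) ∂(P Ω)) ^ 2)
        ≤ (n : ℝ) * (‖c m‖ ^ 2 / F ^ 2 *
          (C₁ * (∫ f : Fin d → MW, VJ (τ m) f ^ (2 * (2 * N)) ∂(pr d γ)) + ε₁)) := by
          have := hd2 m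
          gcongr
      _ = _ := by ring
  rw [e1, ← hT]
  have e5 : ‖∫ p, (ψ p.1 : ℂ) * PN c (2 * N) (fun m => SJ (fun i => lam i l) (fun i => u i l) (τ m) p) ∂(P Ω)‖ ^ 2 ≤
      C₁ * (2 * T + 2 * Δ) + 2 * ε₁ := by
    rw [e2, Complex.sq_norm, Complex.normSq_add_mul_I]
    have e6 := mul_le_mul_of_nonneg_left hRJ hC0
    have e7 := a.2
    have e8 := b.2
    linarith
  have e6 : ‖∫ p, (ψ p.1 : ℂ) * TT c (fun m => SJ (fun i => lam i l) (fun i => u i l) (τ m) p) ∂(P Ω)‖ ≤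
      ‖∫ p, (ψ p.1 : ℂ) * PN c (2 * N) (fun m => SJ (fun i => lam i l) (fun i => u i l) (τ m) p) ∂(P Ω)‖ +
      ‖∫ p, ((ψ p.1 : ℂ) * TT c (fun m => SJ (fun i => lam i l) (fun i => u i l) (τ m) p) -
      (ψ p.1 : ℂ) * PN c (2 * N) (fun m => SJ (fun i => lam i l) (fun i => u i l) (τ m) p)) ∂(P Ω)‖ := by
    rw [integral_sub iTT iPN]
    have := norm_add_le
      (∫ p, (ψ p.1 : ℂ) * PN c (2 * N) (fun m => SJ (fun i => lam i l) (fun i => u i l) (τ m) p) ∂(P Ω))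
      (∫ p, (ψ p.1 : ℂ) * TT c (fun m => SJ (fun i => lam i l) (fun i => u i l) (τ m) p) ∂(P Ω) -
      ∫ p, (ψ p.1 : ℂ) * PN c (2 * N) (fun m => SJ (fun i => lam i l) (fun i => u i l) (τ m) p) ∂(P Ω))
    rwa [add_sub_cancel] at this
  have e7 := pow_le_pow_left₀ (norm_nonneg _) e6 2
  have e8 : η * (12 * C₁ + 1) = ε := by
    rw [hη]
    have : 12 * C₁ + 1 ≠ 0 := by positivity
    field_simp
  have e9 : ε₁ * (4 + 2 * ∑ m, n * (‖c m‖ ^ 2 / F ^ 2)) = ε / 2 := by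
    rw [hε₁]
    field_simp
  have e10 : C₁ * Δ ≤ C₁ * η := mul_le_mul_of_nonneg_left hΔη hC0
  nlinarith [sq_nonneg (‖∫ p, (ψ p.1 : ℂ) *
      PN c (2 * N) (fun m => SJ (fun i => lam i l) (fun i => u i l) (τ m) p) ∂(P Ω)‖ -
      ‖∫ p, ((ψ p.1 : ℂ) * TT c (fun m => SJ (fun i => lam i l) (fun i => u i l) (τ m) p) -
      (ψ p.1 : ℂ) * PN c (2 * N) (fun m => SJ (fun i => lam i l) (fun i => u i l) (τ m) p)) ∂(P Ω)‖)]

end Pool.Agent.H356.JM
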